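import Mathlib

set_option autoImplicit false
open Finset

namespace Pool.Agent.Lib.MP_63bd8a_pr

/-- flip the i-th coordinate of a vertex of the discrete cube -/
def flipAt {n : ℕ} (i : Fin n) (σ : Fin n → Bool) : Fin n → Bool := Function.update σ i (!σ i)

lemma flipAt_flipAt {n : ℕ} (i : Fin n) (σ : Fin n → Bool) : flipAt i (flipAt i σ) = σ := by
  unfold flipAt
  simp

/-- flipping as an equivalence -/
def flipEquiv {n : ℕ} (i : Fin n) : (Fin n → Bool) ≃ (Fin n → Bool) where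
  toFun := flipAt i
  invFun := flipAt i
  left_inv := flipAt_flipAt i
  right_inv := flipAt_flipAt i

lemma sum_cube_succ {n : ℕ} (F : (Fin (n + 1) → Bool) → ℝ) :
    ∑ σ, F σ = ∑ τ : Fin n → Bool, (F (Fin.cons true τ) + F (Fin.cons false τ)) := by
  rw [← (Fin.consEquiv (fun _ : Fin (n + 1) => Bool)).sum_comp, Fintype.sum_prod_type,
    Fintype.sum_bool, ← Finset.sum_add_distrib]
  rfl

lemma flipAt_zero_cons {n : ℕ} (b : Bool) (τ : Fin n → Bool) :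
    flipAt (0 : Fin (n + 1)) (Fin.cons b τ) = Fin.cons (!b) τ := by
  unfold flipAt
  simp [Fin.update_cons_zero]

lemma flipAt_succ_cons {n : ℕ} (i : Fin n) (b : Bool) (τ : Fin n → Bool) :
    flipAt i.succ (Fin.cons b τ) = Fin.cons b (flipAt i τ) := by
  unfold flipAt
  simp [Fin.cons_update]

/-- The Efron-Stein (Poincare) inequality on the discrete cube. -/
lemma efron_stein (n : ℕ) (f : (Fin n → Bool) → ℝ) :
    (2 : ℝ) ^ n * ∑ σ, f σ ^ 2 - (∑ σ, f σ) ^ 2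
      ≤ (2 : ℝ) ^ n / 4 * ∑ i, ∑ σ, (f σ - f (flipAt i σ)) ^ 2 := by
  induction n with
  | zero => simp
  | succ n ih =>
    have h := ih (fun τ => f (Fin.cons true τ) + f (Fin.cons false τ))
    rw [Fin.sum_univ_succ]
    simp only [sum_cube_succ, flipAt_zero_cons, flipAt_succ_cons, Bool.not_true, Bool.not_false]
    set a : (Fin n → Bool) → ℝ := fun τ => f (Fin.cons true τ) with ha
    set b : (Fin n → Bool) → ℝ := fun τ => f (Fin.cons false τ) with hb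
    change (2 : ℝ) ^ (n + 1) * ∑ τ, (a τ ^ 2 + b τ ^ 2) - (∑ τ, (a τ + b τ)) ^ 2
      ≤ (2 : ℝ) ^ (n + 1) / 4 * (∑ τ, ((a τ - b τ) ^ 2 + (b τ - a τ) ^ 2)
        + ∑ i, ∑ τ, ((a τ - a (flipAt i τ)) ^ 2 + (b τ - b (flipAt i τ)) ^ 2))
    change (2 : ℝ) ^ n * ∑ τ, (a τ + b τ) ^ 2 - (∑ τ, (a τ + b τ)) ^ 2
      ≤ (2 : ℝ) ^ n / 4 * ∑ i, ∑ τ,
        (a τ + b τ - (a (flipAt i τ) + b (flipAt i τ))) ^ 2 at h
    have e1 : 2 * ∑ τ, (a τ ^ 2 + b τ ^ 2)
        = ∑ τ, (a τ + b τ) ^ 2 + 1 / 2 * ∑ τ, ((a τ - b τ) ^ 2 + (b τ - a τ) ^ 2) := by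
      rw [Finset.mul_sum, Finset.mul_sum, ← Finset.sum_add_distrib]
      exact Finset.sum_congr rfl fun τ _ => by ring
    have e2 : ∑ i, ∑ τ, (a τ + b τ - (a (flipAt i τ) + b (flipAt i τ))) ^ 2
        ≤ 2 * ∑ i, ∑ τ, ((a τ - a (flipAt i τ)) ^ 2 + (b τ - b (flipAt i τ)) ^ 2) := by
      rw [Finset.mul_sum]
      refine Finset.sum_le_sum fun i _ => ?_
      rw [Finset.mul_sum]
      refine Finset.sum_le_sum fun τ _ => ?_
      nlinarith [sq_nonneg (a τ - a (flipAt i τ) - (b τ - b (flipAt i τ)))]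
    have hp : (0 : ℝ) < 2 ^ n := by positivity
    have e3 := mul_le_mul_of_nonneg_left e2 (by positivity : (0 : ℝ) ≤ 2 ^ n / 4)
    have e4 : (2 : ℝ) ^ (n + 1) * ∑ τ, (a τ ^ 2 + b τ ^ 2)
        = 2 ^ n * (2 * ∑ τ, (a τ ^ 2 + b τ ^ 2)) := by ring
    rw [e4, e1, pow_succ (2 : ℝ) n]
    nlinarith

/-- one-sided form -/
lemma sum_sq_flip {n : ℕ} (i : Fin n) (f : (Fin n → Bool) → ℝ) :
    ∑ σ, (f σ - f (flipAt i σ)) ^ 2 = 2 * ∑ σ, (max (f σ - f (flipAt i σ)) 0) ^ 2 := by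
  have h1 : ∑ σ, (max (f (flipAt i σ) - f σ) 0) ^ 2
      = ∑ σ, (max (f σ - f (flipAt i σ)) 0) ^ 2 := by
    rw [← (flipEquiv i).sum_comp]
    refine Finset.sum_congr rfl fun σ _ => ?_
    change (max (f (flipAt i (flipAt i σ)) - f (flipAt i σ)) 0) ^ 2 = _
    rw [flipAt_flipAt]
  rw [two_mul]
  nth_rewrite 2 [← h1]
  rw [← Finset.sum_add_distrib]
  refine Finset.sum_congr rfl fun σ _ => ?_
  rcases le_total (f σ) (f (flipAt i σ)) with h | h
  · rw [max_eq_right (by linarith), max_eq_left (by linarith)]; ring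
  · rw [max_eq_left (by linarith), max_eq_right (by linarith)]; ring

end Pool.Agent.Lib.MP_63bd8a_pr
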