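import Pool.Agent.Lib.MP_63bd8a_pr.Sub

/-! A mixture of the uniform laws on two concentric cubes. -/

set_option autoImplicit false
open MeasureTheory ProbabilityTheory ENNReal Filter Topology

namespace Pool.Agent.Lib.MP_63bd8a_pr

lemma emb_X {n : ℕ} {s : ℝ} (hs : 0 < s) : MeasurableEmbedding (X (n := n) s) :=
  (measurableEmbedding_const_smul₀ hs.ne').comp (MeasurableEquiv.toLp 2 _).measurableEmbedding

/-- the uniform law on the cube of half side `s` -/
noncomputable def kap (n : ℕ) (s : ℝ) : Measure (EuclideanSpace ℝ (Fin n)) := (uP n).map (X s)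

instance (n : ℕ) (s : ℝ) : IsProbabilityMeasure (kap n s) :=
  Measure.isProbabilityMeasure_map (cont_X s).measurable.aemeasurable

/-- the mixture -/
noncomputable def mix (n : ℕ) (a : ℝ) : Measure (EuclideanSpace ℝ (Fin n)) :=
  ENNReal.ofReal (1 - 1 / n) • kap n a + ENNReal.ofReal (1 / n) • kap n (a / 4)

lemma isProb_mix {n : ℕ} (hn : 1 ≤ n) (a : ℝ) : IsProbabilityMeasure (mix n a) := ⟨by
  have h1 := one_div_le_one hn
  simp only [mix, Measure.add_apply, Measure.smul_apply, measure_univ, smul_eq_mul, mul_one]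
  rw [← ENNReal.ofReal_add (by linarith) (by positivity)]
  simp⟩

lemma lintegral_mix {n : ℕ} {a : ℝ} (ha : 0 < a) (F : EuclideanSpace ℝ (Fin n) → ℝ≥0∞) :
    ∫⁻ z, F z ∂(mix n a) = ENNReal.ofReal (1 - 1 / n) * ∫⁻ x, F (X a x) ∂(uP n)
      + ENNReal.ofReal (1 / n) * ∫⁻ x, F (X (a / 4) x) ∂(uP n) := by
  rw [mix, lintegral_add_measure, lintegral_smul_measure, lintegral_smul_measure, kap, kap,
    (emb_X ha).lintegral_map, (emb_X (by positivity)).lintegral_map]
  rfl

lemma neg_un : MeasurePreserving (fun y : ℝ => -y) un un := by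
  refine ⟨measurable_neg, Measure.ext fun A hA => ?_⟩
  rw [Measure.map_apply measurable_neg hA, un, Measure.smul_apply, Measure.smul_apply,
    Measure.restrict_apply hA, Measure.restrict_apply (measurable_neg hA),
    ← Measure.measure_preimage_neg volume (A ∩ Set.Icc (-1) 1)]
  congr 2
  ext y
  simp [and_comm]

lemma mean_le {n : ℕ} {a : ℝ} (ha : 0 < a) (f : EuclideanSpace ℝ (Fin n) → ℝ)
    (hf : ConvexOn ℝ Set.univ f) (hc : Continuous f) :
    ∫ x, f (X (a / 4) x) ∂(uP n) ≤ ∫ x, f (X a x) ∂(uP n) := by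
  have hp : MeasurePreserving (fun (x : Fin n → ℝ) i => -x i) (uP n) (uP n) :=
    measurePreserving_pi _ _ fun _ => neg_un
  have i1 := (memLp_X ha.le hc).integrable (by norm_num)
  have i2 := (memLp_X (show 0 ≤ a / 4 by positivity) hc).integrable (by norm_num)
  have i3 : Integrable (fun x : Fin n → ℝ => f (X a fun i => -x i)) (uP n) :=
    hp.integrable_comp_of_integrable i1
  have e : ∫ x, f (X a fun i => -x i) ∂(uP n) = ∫ x, f (X a x) ∂(uP n) := by
    have := integral_map (μ := uP n) hp.measurable.aemeasurable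
      (f := fun x => f (X a x)) (hc.comp (cont_X a)).aestronglyMeasurable
    rw [hp.map_eq] at this
    exact this.symm
  have h : ∫ x, f (X (a / 4) x) ∂(uP n)
      ≤ ∫ x, (5 / 8 * f (X a x) + 3 / 8 * f (X a fun i => -x i)) ∂(uP n) := by
    refine integral_mono i2 ((i1.const_mul _).add (i3.const_mul _)) fun x => ?_
    have := hf.2 (Set.mem_univ (X a x)) (Set.mem_univ (X a fun i => -x i))
      (show (0 : ℝ) ≤ 5 / 8 by norm_num) (show (0 : ℝ) ≤ 3 / 8 by norm_num) (by norm_num)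
    have e2 : (5 / 8 : ℝ) • X a x + (3 / 8 : ℝ) • X a (fun i => -x i) = X (a / 4) x := by
      ext i
      simp only [PiLp.add_apply, PiLp.smul_apply, X_apply, smul_eq_mul]
      ring
    rw [e2] at this
    exact this
  rw [integral_add (i1.const_mul _) (i3.const_mul _), integral_const_mul, integral_const_mul,
    e] at h
  linarith

lemma gap_le {n : ℕ} {a : ℝ} (ha : 0 < a) (f : EuclideanSpace ℝ (Fin n) → ℝ)
    (hf : ConvexOn ℝ Set.univ f) (hc : Continuous f) :
    ‖∫ x, f (X (a / 4) x) ∂(uP n) - ∫ x, f (X a x) ∂(uP n)‖ₑ ^ 2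
      ≤ ENNReal.ofReal (a ^ 2 * n) * ∫⁻ x, slope' f (X a x) ^ 2 ∂(uP n) := by
  have i1 := (memLp_X ha.le hc).integrable (by norm_num)
  have i2 := (memLp_X (show 0 ≤ a / 4 by positivity) hc).integrable (by norm_num)
  rw [enorm_sub_rev, Real.enorm_eq_ofReal (sub_nonneg.2 (mean_le ha f hf hc)),
    ← integral_sub i1 i2, ← lintegral_const_mul' _ _ ENNReal.ofReal_ne_top]
  refine (jensen_pos _ (i1.sub i2)).trans (lintegral_mono_ae ((ae_uP n).mono fun x hx => ?_))
  obtain ⟨g, h1, h2⟩ := exists_subgrad f hf hc (X a x)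
  have h3 := h1 (X (a / 4) x)
  have e : X (a / 4) x - X a x = (-(3 / 4) : ℝ) • X a x := by
    ext i
    simp only [PiLp.sub_apply, PiLp.smul_apply, X_apply, smul_eq_mul]
    ring
  rw [e, inner_smul_right] at h3
  have h4 := real_inner_le_norm g (X a x)
  have h5 := mul_le_mul_of_nonneg_left (norm_X ha.le hx) (norm_nonneg g)
  have h6 : 0 ≤ ‖g‖ * (a * √n) := by positivity
  have h7 : f (X a x) - f (X (a / 4) x) ≤ a * √n * ‖g‖ := by linarith
  calc _ ≤ ENNReal.ofReal (a * √n * ‖g‖) ^ 2 := by gcongr; exact h7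
    _ = ENNReal.ofReal (a ^ 2 * n) * ENNReal.ofReal ‖g‖ ^ 2 := by
        rw [ENNReal.ofReal_mul (by positivity), mul_pow, ← ENNReal.ofReal_pow (by positivity),
          mul_pow, Real.sq_sqrt (by positivity)]
    _ ≤ _ := by gcongr

lemma memLp_mix {n : ℕ} {a : ℝ} (ha : 0 < a) {f : EuclideanSpace ℝ (Fin n) → ℝ}
    (hc : Continuous f) : MemLp f 2 (mix n a) := by
  have h : ∀ s : ℝ, 0 < s → MemLp f 2 (kap n s) := fun s hs =>
    (emb_X hs).memLp_map_measure_iff.2 (memLp_X hs.le hc)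
  exact (memLp_two_iff_integrable_sq hc.aestronglyMeasurable).2
    (((h a ha).integrable_sq.smul_measure ENNReal.ofReal_ne_top).add_measure
      ((h _ (by positivity)).integrable_sq.smul_measure ENNReal.ofReal_ne_top))

theorem cp_mix {n : ℕ} (hn : 2 ≤ n) {a : ℝ} (ha : 0 < a) (f : EuclideanSpace ℝ (Fin n) → ℝ)
    (hf : ConvexOn ℝ Set.univ f) (hc : Continuous f) :
    evariance f (mix n a) ≤ ENNReal.ofReal (6 * a ^ 2) * ∫⁻ z, slope' f z ^ 2 ∂(mix n a) := by
  have := isProb_mix (show 1 ≤ n by omega) a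
  have hn' : (2 : ℝ) ≤ n := by exact_mod_cast hn
  have h2 : (1 : ℝ) / n ≤ 1 / 2 := one_div_le_one_div_of_le (by norm_num) hn'
  have a4 : 0 ≤ a / 4 := by positivity
  refine le_trans le_self_add
    ((bias_var _ (memLp_mix ha hc) (∫ x, f (X a x) ∂(uP n))).symm.le.trans ?_)
  rw [lintegral_mix ha, lintegral_mix ha, bias_var _ (memLp_X ha.le hc),
    bias_var _ (memLp_X a4 hc), sub_self]
  set I := ∫⁻ x, slope' f (X a x) ^ 2 ∂(uP n)
  set J := ∫⁻ x, slope' f (X (a / 4) x) ^ 2 ∂(uP n)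
  set q := ENNReal.ofReal (1 - 1 / n) with hq
  set p := ENNReal.ofReal (1 / n) with hp
  have k1 : p * ENNReal.ofReal (a ^ 2 * n) ≤ q * ENNReal.ofReal (2 * a ^ 2) := by
    rw [hp, hq, ← ENNReal.ofReal_mul (by positivity), ← ENNReal.ofReal_mul (by linarith)]
    refine ENNReal.ofReal_le_ofReal ?_
    have : 1 / (n : ℝ) * (a ^ 2 * n) = a ^ 2 := by field_simp
    rw [this]
    nlinarith [sq_nonneg a]
  have k2 : ENNReal.ofReal (4 * (a / 4) ^ 2) ≤ ENNReal.ofReal (6 * a ^ 2) :=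
    ENNReal.ofReal_le_ofReal (by nlinarith [sq_nonneg a])
  have k3 : ENNReal.ofReal (6 * a ^ 2)
      = ENNReal.ofReal (4 * a ^ 2) + ENNReal.ofReal (2 * a ^ 2) := by
    rw [← ENNReal.ofReal_add (by positivity) (by positivity)]
    congr 1
    ring
  calc _ ≤ q * (ENNReal.ofReal (4 * a ^ 2) * I + 0) + p * (ENNReal.ofReal (6 * a ^ 2) * J
        + ENNReal.ofReal (a ^ 2 * n) * I) := by
        gcongr
        · exact cp_cube ha.le f hf hc
        · simp
        · exact (cp_cube a4 f hf hc).trans (by gcongr)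
        · exact gap_le ha f hf hc
    _ = q * ENNReal.ofReal (4 * a ^ 2) * I + p * ENNReal.ofReal (a ^ 2 * n) * I
        + ENNReal.ofReal (6 * a ^ 2) * (p * J) := by ring
    _ ≤ q * ENNReal.ofReal (4 * a ^ 2) * I + q * ENNReal.ofReal (2 * a ^ 2) * I
        + ENNReal.ofReal (6 * a ^ 2) * (p * J) := by gcongr
    _ = _ := by rw [mul_add (ENNReal.ofReal (6 * a ^ 2)) (q * I)]; congr 1; rw [k3]; ring

lemma uP_eq (n : ℕ) :
    uP n = (2 : ℝ≥0∞)⁻¹ ^ n • volume.restrict (Set.univ.pi fun _ => Set.Icc (-1 : ℝ) 1) := by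
  refine Measure.pi_eq fun s hs => ?_
  rw [Measure.smul_apply, volume_pi, Measure.restrict_pi_pi, Measure.pi_pi]
  simp [un, Finset.prod_mul_distrib]

lemma kap_apply {n : ℕ} {s : ℝ} (hs : 0 < s) {A : Set (EuclideanSpace ℝ (Fin n))}
    (hA : MeasurableSet A) : kap n s A = (2 : ℝ≥0∞)⁻¹ ^ n * ENNReal.ofReal |(s ^ n)⁻¹|
      * volume (A ∩ {z | ∀ i, |z i| ≤ s}) := by
  have hQ : MeasurableSet {z : EuclideanSpace ℝ (Fin n) | ∀ i, |z i| ≤ s} := by
    simp only [Set.ofPred_forall]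
    exact MeasurableSet.iInter fun i => measurableSet_le (by fun_prop) measurable_const
  have e : X s ⁻¹' A ∩ (Set.univ.pi fun _ => Set.Icc (-1 : ℝ) 1)
      = WithLp.toLp 2 ⁻¹' ((s • ·) ⁻¹' (A ∩ {z | ∀ i, |z i| ≤ s})) := by
    ext x
    refine and_congr Iff.rfl ?_
    simp only [Set.mem_pi, Set.mem_univ, true_imp_iff, Set.mem_Icc, Set.mem_ofPred_eq,
      PiLp.smul_apply, smul_eq_mul, abs_mul, abs_of_pos hs, ← abs_le]
    exact forall_congr' fun i => (mul_le_iff_le_one_right hs).symm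
  rw [kap, Measure.map_apply (cont_X s).measurable hA, uP_eq, Measure.smul_apply,
    Measure.restrict_apply ((cont_X s).measurable hA), e,
    (PiLp.volume_preserving_toLp (Fin n)).measure_preimage
      ((measurable_const_smul s (hA.inter hQ)).nullMeasurableSet),
    Measure.addHaar_preimage_smul _ hs.ne', smul_eq_mul, mul_assoc]
  simp

theorem dens_mix {n : ℕ} (hn : 2 ≤ n) {a : ℝ} (ha : 0 < a) : ∃ c C : ℝ≥0∞, c ≠ 0 ∧ C ≠ ⊤ ∧
    ∀ A, MeasurableSet A → c * volume (A ∩ {z | ∀ i, |z i| ≤ a}) ≤ mix n a A ∧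
      mix n a A ≤ C * volume (A ∩ {z | ∀ i, |z i| ≤ a}) := by
  have hn' : (2 : ℝ) ≤ n := by exact_mod_cast hn
  have h2 : (1 : ℝ) / n ≤ 1 / 2 := one_div_le_one_div_of_le (by norm_num) hn'
  refine ⟨ENNReal.ofReal (1 - 1 / n) * (2⁻¹ ^ n * ENNReal.ofReal |(a ^ n)⁻¹|),
    ENNReal.ofReal (1 - 1 / n) * (2⁻¹ ^ n * ENNReal.ofReal |(a ^ n)⁻¹|)
      + ENNReal.ofReal (1 / n) * (2⁻¹ ^ n * ENNReal.ofReal |((a / 4) ^ n)⁻¹|), ?_, by finiteness,
    fun A hA => ?_⟩
  · refine mul_ne_zero ?_ (mul_ne_zero (pow_ne_zero _ (by simp)) ?_)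
    · exact (ENNReal.ofReal_pos.2 (by linarith)).ne'
    · exact (ENNReal.ofReal_pos.2 (by positivity)).ne'
  simp only [mix, Measure.add_apply, Measure.smul_apply, smul_eq_mul]
  rw [kap_apply ha hA, kap_apply (by positivity) hA, add_mul, mul_assoc, mul_assoc (ENNReal.ofReal
    (1 / n))]
  refine ⟨le_self_add, ?_⟩
  gcongr with z i
  linarith

end Pool.Agent.Lib.MP_63bd8a_pr
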