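import Pool.Agent.Lib.MP_63bd8a_pr.Den

/-! Medians and the lower tail of the Euclidean norm under the mixture. -/

set_option autoImplicit false
open MeasureTheory ProbabilityTheory ENNReal Filter Topology

namespace Pool.Agent.Lib.MP_63bd8a_pr

lemma exists_median {α : Type} [MeasurableSpace α] (μ : Measure α) [IsProbabilityMeasure μ]
    {f : α → ℝ} (hf : Measurable f) :
    ∃ m, 1 / 2 ≤ μ {x | m ≤ f x} ∧ 1 / 2 ≤ μ {x | f x ≤ m} := by
  have := Measure.isProbabilityMeasure_map (μ := μ) hf.aemeasurable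
  set F := cdf (μ.map f) with hF
  have half : (1 / 2 : ℝ≥0∞) = ENNReal.ofReal (1 / 2) := by
    rw [ENNReal.ofReal_div_of_pos (by norm_num)]; simp
  have e : ∀ r, μ {x | f x ≤ r} = ENNReal.ofReal (F r) := fun r => by
    rw [hF, ofReal_cdf, Measure.map_apply hf measurableSet_Iic]; rfl
  have hne : {r | 1 / 2 ≤ F r}.Nonempty :=
    ((tendsto_cdf_atTop (μ.map f)).eventually (lt_mem_nhds (show (1 / 2 : ℝ) < 1 by
      norm_num))).exists.imp fun r hr => hr.le
  have hbd : BddBelow {r | 1 / 2 ≤ F r} := by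
    obtain ⟨b, hb⟩ := eventually_atBot.1 ((tendsto_cdf_atBot (μ.map f)).eventually
      (gt_mem_nhds (show (0 : ℝ) < 1 / 2 by norm_num)))
    exact ⟨b, fun r hr => by
      by_contra h
      exact absurd (hb r (not_le.1 h).le) (not_lt.2 hr)⟩
  set m := sInf {r | 1 / 2 ≤ F r} with hm
  refine ⟨m, ?_, ?_⟩
  · have h1 : μ {x | f x < m} ≤ 1 / 2 := by
      have u : {x | f x < m} = ⋃ k : ℕ, {x | f x ≤ m - 1 / ((k : ℝ) + 1)} := by
        ext x
        simp only [Set.mem_ofPred_eq, Set.mem_iUnion]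
        refine ⟨fun h => ?_, fun ⟨k, hk⟩ => ?_⟩
        · obtain ⟨k, hk⟩ := exists_nat_one_div_lt (sub_pos.2 h)
          exact ⟨k, by linarith⟩
        · have : (0 : ℝ) < 1 / ((k : ℝ) + 1) := by positivity
          linarith
      rw [u, Monotone.measure_iUnion]
      · refine iSup_le fun k => ?_
        rw [e, half]
        refine ENNReal.ofReal_le_ofReal ?_
        by_contra h
        have h3 : m ≤ m - 1 / ((k : ℝ) + 1) := csInf_le hbd (not_le.1 h).le
        have : (0 : ℝ) < 1 / ((k : ℝ) + 1) := by positivity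
        linarith
      · intro i j hij x hx
        have : (1 : ℝ) / ((j : ℝ) + 1) ≤ 1 / ((i : ℝ) + 1) := Nat.one_div_le_one_div hij
        simp only [Set.mem_ofPred_eq] at hx ⊢
        linarith
    have h2 : {x | m ≤ f x} = {x | f x < m}ᶜ := by ext x; simp
    rw [h2, prob_compl_eq_one_sub (measurableSet_lt hf measurable_const)]
    refine le_trans (le_of_eq ?_) (tsub_le_tsub_left h1 1)
    simp
  · rw [e, half]
    refine ENNReal.ofReal_le_ofReal ?_
    refine ge_of_tendsto ((F.right_continuous m).mono Set.Ioi_subset_Ici_self) ?_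
    filter_upwards [self_mem_nhdsWithin] with r hr
    obtain ⟨s, hs, hsr⟩ := exists_lt_of_csInf_lt hne hr
    exact le_trans hs (F.mono hsr.le)

lemma slope_norm {n : ℕ} (x : EuclideanSpace ℝ (Fin n)) : slope' (fun z => ‖z‖) x ≤ 1 := by
  refine limsup_le_of_le (h := eventually_nhdsWithin_of_forall fun y hy => ?_)
  have h : 0 < dist y x := dist_pos.2 hy
  rw [← ENNReal.ofReal_one]
  refine ENNReal.ofReal_le_ofReal ((div_le_one h).2 ?_)
  rw [dist_eq_norm]
  exact abs_norm_sub_norm_le y x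

lemma sq_un : ∫ y, y ^ 2 ∂un = 1 / 3 := by
  rw [un, integral_smul_measure, integral_Icc_eq_integral_Ioc,
    ← intervalIntegral.integral_of_le (by norm_num), integral_pow]
  norm_num

lemma sq_uP (n : ℕ) (a : ℝ) : ∫ x, ‖X a x‖ ^ 2 ∂(uP n) = a ^ 2 * (n / 3) := by
  have hp : ∀ i : Fin n, MeasurePreserving (Function.eval i) (uP n) un := fun i =>
    measurePreserving_eval (fun _ => un) i
  have i0 : Integrable (fun y : ℝ => y ^ 2) un :=
    (MemLp.of_bound (p := 2) aestronglyMeasurable_id 1 ae_un).integrable_sq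
  have e : ∀ i : Fin n, ∫ x, x i ^ 2 ∂(uP n) = 1 / 3 := fun i => by
    have := integral_map (μ := uP n) (hp i).measurable.aemeasurable
      (f := fun y : ℝ => y ^ 2) (by fun_prop)
    rw [(hp i).map_eq, sq_un] at this
    exact this.symm
  simp only [EuclideanSpace.real_norm_sq_eq, X_apply, mul_pow, ← Finset.mul_sum]
  have i1 : ∀ i : Fin n, Integrable (fun x : Fin n → ℝ => x i ^ 2) (uP n) := fun i =>
    (hp i).integrable_comp_of_integrable i0
  rw [integral_const_mul, integral_finsetSum _ fun i _ => i1 i]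
  simp only [e]
  simp [div_eq_mul_inv]

lemma small_kap {n : ℕ} (hn : 48 ≤ n) {a : ℝ} (ha : 0 < a) :
    kap n a {z | ‖z‖ ≤ a * (√n / 2 - 3)} ≤ ENNReal.ofReal (4 / 9) := by
  have hn' : (48 : ℝ) ≤ n := by exact_mod_cast hn
  have hL : MemLp (fun x => ‖X a x‖) 2 (uP n) := memLp_X ha.le continuous_norm
  have hv : variance (fun x => ‖X a x‖) (uP n) ≤ 4 * a ^ 2 := by
    rw [← ENNReal.ofReal_le_ofReal_iff (by positivity), ofReal_variance hL]
    refine (cp_cube ha.le _ convexOn_univ_norm continuous_norm).trans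
      (mul_le_of_le_one_right' ?_)
    refine (lintegral_mono (g := fun _ => 1) fun x => ?_).trans (by simp)
    exact pow_le_one' (slope_norm _) 2
  have h1 := variance_eq_sub hL
  have h2 : ∫ x, ((fun x => ‖X a x‖) ^ 2) x ∂(uP n) = a ^ 2 * (n / 3) := sq_uP n a
  rw [h2] at h1
  set E := ∫ x, ‖X a x‖ ∂(uP n) with hE
  have hE0 : 0 ≤ E := integral_nonneg fun x => norm_nonneg _
  have h3 : a * (√n / 2) ≤ E := by
    refine le_of_sq_le_sq ?_ hE0
    rw [mul_pow, div_pow, Real.sq_sqrt (by positivity)]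
    nlinarith [sq_nonneg a]
  have h4 := meas_ge_le_variance_div_sq hL (show 0 < 3 * a by positivity)
  rw [kap, Measure.map_apply (cont_X a).measurable (measurableSet_le (by fun_prop)
    measurable_const)]
  refine le_trans (measure_mono fun x hx => ?_) (h4.trans (ENNReal.ofReal_le_ofReal ?_))
  · have h5 : ‖X a x‖ ≤ a * (√n / 2 - 3) := hx
    have h6 := neg_abs_le (‖X a x‖ - E)
    change 3 * a ≤ |‖X a x‖ - E|
    linarith
  · rw [div_le_iff₀ (by positivity)]
    linarith

theorem dens_tail (l t : ℝ) (hl : 0 < l) (ht : 0 < t) : ∃ (n : ℕ) (a : ℝ), 2 ≤ n ∧ 0 < a ∧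
    6 * a ^ 2 = 1 / l ∧ ∀ m, 1 / 2 ≤ mix n a {x | ‖x‖ ≤ m} →
      ENNReal.ofReal (1 / (200 * l * t ^ 2 + 300)) ≤ mix n a {x | ‖x‖ ≤ m - t} := by
  have ha : 0 < √(1 / (6 * l)) := Real.sqrt_pos.2 (by positivity)
  have ha2 : 6 * √(1 / (6 * l)) ^ 2 = 1 / l := by
    rw [Real.sq_sqrt (by positivity)]; field_simp
  generalize √(1 / (6 * l)) = a at ha ha2
  have hla : l * (6 * a ^ 2) = 1 := by rw [ha2]; field_simp
  have hp : 0 ≤ 200 * l * t ^ 2 := by positivity
  obtain ⟨n, h3, h1, h2⟩ : ∃ n : ℕ, 288 ≤ n ∧ 200 * l * t ^ 2 + 288 ≤ n ∧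
      (n : ℝ) ≤ 200 * l * t ^ 2 + 300 := by
    refine ⟨⌊200 * l * t ^ 2⌋₊ + 300, by omega, ?_, ?_⟩ <;> push_cast
    · linarith [Nat.lt_floor_add_one (200 * l * t ^ 2)]
    · linarith [Nat.floor_le hp]
  have h3' : (288 : ℝ) ≤ n := by exact_mod_cast h3
  have h4 : 4 * t + 12 * a ≤ a * √n := by
    refine le_of_sq_le_sq ?_ (by positivity)
    rw [mul_pow, Real.sq_sqrt (by positivity)]
    have h5 := mul_le_mul_of_nonneg_left h1 (sq_nonneg a)
    have h6 : a ^ 2 * (200 * l * t ^ 2 + 288) = 200 / 6 * (l * (6 * a ^ 2)) * t ^ 2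
        + 288 * a ^ 2 := by ring
    rw [h6, hla] at h5
    nlinarith [sq_nonneg (4 * t - 12 * a), sq_nonneg t]
  refine ⟨n, a, by omega, ha, ha2, fun m hm => ?_⟩
  have h7 : a * (√n / 2 - 3) < m := by
    by_contra h
    have h8 : kap n a {x | ‖x‖ ≤ m} ≤ ENNReal.ofReal (4 / 9) :=
      (measure_mono fun x hx => le_trans hx (not_lt.1 h)).trans (small_kap (by omega) ha)
    have h9 : (1 : ℝ) / n ≤ 1 / 288 := one_div_le_one_div_of_le (by norm_num) h3'
    have h10 : (0 : ℝ) ≤ 1 / n := by positivity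
    have : mix n a {x | ‖x‖ ≤ m} ≤ ENNReal.ofReal (4 / 9 + 1 / 288) := by
      simp only [mix, Measure.add_apply, Measure.smul_apply, smul_eq_mul]
      rw [ENNReal.ofReal_add (by norm_num) (by norm_num)]
      refine add_le_add ((mul_le_of_le_one_left' ?_).trans h8)
        ((mul_le_of_le_one_right' prob_le_one).trans (ENNReal.ofReal_le_ofReal h9))
      exact ENNReal.ofReal_le_one.2 (by linarith)
    have half : (1 / 2 : ℝ≥0∞) = ENNReal.ofReal (1 / 2) := by
      rw [ENNReal.ofReal_div_of_pos (by norm_num)]; simp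
    rw [half] at hm
    have := (ENNReal.ofReal_le_ofReal_iff (by norm_num)).1 (hm.trans this)
    norm_num at this
  have h11 : kap n (a / 4) {x | ‖x‖ ≤ m - t} = 1 := by
    have ms : MeasurableSet {x : EuclideanSpace ℝ (Fin n) | ‖x‖ ≤ m - t} :=
      measurableSet_le (by fun_prop) measurable_const
    rw [kap, Measure.map_apply (cont_X _).measurable ms,
      ← prob_compl_eq_zero_iff ((cont_X _).measurable ms)]
    refine (ae_uP n).mono fun x hx => ?_
    have := norm_X (show 0 ≤ a / 4 by positivity) hx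
    change ‖X (a / 4) x‖ ≤ m - t
    linarith
  simp only [mix, Measure.add_apply, Measure.smul_apply, smul_eq_mul, h11, mul_one]
  exact (ENNReal.ofReal_le_ofReal (one_div_le_one_div_of_le (by linarith) h2)).trans le_add_self

end Pool.Agent.Lib.MP_63bd8a_pr
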