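import Mathlib

/-! The Efron-Stein inequality for bounded measurable functions on a product space. -/

set_option autoImplicit false
open MeasureTheory ProbabilityTheory ENNReal

namespace Pool.Agent.Lib.MP_63bd8a_pr

variable {α : Type} [MeasurableSpace α]

lemma enorm_sq (y : ℝ) : ‖y‖ₑ ^ 2 = ENNReal.ofReal (y ^ 2) := by
  rw [← ofReal_norm, ← ENNReal.ofReal_pow (norm_nonneg _), Real.norm_eq_abs, sq_abs]

lemma memLp_bdd (ν : Measure α) [IsFiniteMeasure ν] {h : α → ℝ} (hm : Measurable h) {B : ℝ}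
    (hB : ∀ x, |h x| ≤ B) : MemLp h 2 ν :=
  MemLp.of_bound hm.aestronglyMeasurable B (Filter.Eventually.of_forall hB)

/-- bias and variance -/
lemma bias_var (ν : Measure α) [IsProbabilityMeasure ν] {h : α → ℝ} (hL : MemLp h 2 ν) (c : ℝ) :
    ∫⁻ x, ‖h x - c‖ₑ ^ 2 ∂ν = evariance h ν + ‖(∫ x, h x ∂ν) - c‖ₑ ^ 2 := by
  have hc : MemLp (fun x => h x - c) 2 ν := hL.sub (memLp_const c)
  have e1 := variance_eq_sub hc
  rw [variance_sub_const hL.1 c] at e1
  have e2 : ∫ x, (h x - c) ∂ν = (∫ x, h x ∂ν) - c := by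
    rw [integral_sub (hL.integrable (by norm_num)) (integrable_const c)]; simp
  simp only [enorm_sq]
  rw [← ofReal_integral_eq_lintegral_ofReal hc.integrable_sq
    (Filter.Eventually.of_forall fun x => sq_nonneg _), ← ofReal_variance hL,
    ← ENNReal.ofReal_add (variance_nonneg _ _) (sq_nonneg _), e1, ← e2]
  congr 1
  simp

lemma sq_split (a : ℝ) : ‖a‖ₑ ^ 2 = ENNReal.ofReal a ^ 2 + ENNReal.ofReal (-a) ^ 2 := by
  rcases le_total 0 a with h | h
  · rw [ENNReal.ofReal_of_nonpos (neg_nonpos.2 h), Real.enorm_eq_ofReal h]; simp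
  · rw [ENNReal.ofReal_of_nonpos h, ← enorm_neg, Real.enorm_eq_ofReal (neg_nonneg.2 h)]; simp

/-- the variance through two independent copies -/
lemma var_two (ν : Measure α) [IsProbabilityMeasure ν] {h : α → ℝ} (hm : Measurable h)
    (hL : MemLp h 2 ν) :
    evariance h ν ≤ ∫⁻ y, ∫⁻ w, ENNReal.ofReal (h y - h w) ^ 2 ∂ν ∂ν := by
  set T := ∫⁻ y, ∫⁻ w, ENNReal.ofReal (h y - h w) ^ 2 ∂ν ∂ν with hT
  have e1 : ∫⁻ w, ∫⁻ y, ‖h y - h w‖ₑ ^ 2 ∂ν ∂ν = 2 * evariance h ν := by
    simp only [bias_var ν hL]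
    rw [lintegral_add_left measurable_const, lintegral_const, measure_univ, mul_one, two_mul]
    congr 1
    unfold evariance
    refine lintegral_congr fun w => ?_
    rw [enorm_sub_rev]
  have e2 : ∫⁻ w, ∫⁻ y, ‖h y - h w‖ₑ ^ 2 ∂ν ∂ν = 2 * T := by
    have : ∀ w, ∫⁻ y, ‖h y - h w‖ₑ ^ 2 ∂ν = ∫⁻ y, ENNReal.ofReal (h y - h w) ^ 2 ∂ν
        + ∫⁻ y, ENNReal.ofReal (h w - h y) ^ 2 ∂ν := fun w => by
      rw [← lintegral_add_left (by fun_prop)]
      refine lintegral_congr fun y => ?_
      rw [sq_split, neg_sub]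
    simp only [this]
    rw [lintegral_add_right _ (Measurable.lintegral_prod_right' (f := fun p : α × α =>
      ENNReal.ofReal (h p.1 - h p.2) ^ 2) (by fun_prop)), two_mul]
    congr 1
    exact lintegral_lintegral_swap (f := fun w y => ENNReal.ofReal (h y - h w) ^ 2)
      (Measurable.aemeasurable (by fun_prop))
  rw [e2] at e1
  exact ((ENNReal.mul_right_inj two_ne_zero ENNReal.ofNat_ne_top).1 e1).ge

lemma sq_lintegral_le (ν : Measure α) [IsProbabilityMeasure ν] {u : α → ℝ≥0∞}
    (hu : AEMeasurable u ν) : (∫⁻ x, u x ∂ν) ^ 2 ≤ ∫⁻ x, u x ^ 2 ∂ν := by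
  have h := ENNReal.lintegral_mul_le_Lp_mul_Lq ν Real.HolderConjugate.two_two hu
    (g := fun _ => 1) aemeasurable_const
  simp only [Pi.mul_apply, mul_one, ENNReal.one_rpow, lintegral_const, measure_univ,
    ENNReal.rpow_two, one_pow] at h
  calc (∫⁻ x, u x ∂ν) ^ 2 ≤ ((∫⁻ x, u x ^ 2 ∂ν) ^ (1 / 2 : ℝ)) ^ 2 := by gcongr
    _ = _ := by rw [← ENNReal.rpow_two, ← ENNReal.rpow_mul]; norm_num

lemma ofReal_integral_le (ν : Measure α) {u : α → ℝ} (hu : Integrable u ν) :
    ENNReal.ofReal (∫ x, u x ∂ν) ≤ ∫⁻ x, ENNReal.ofReal (u x) ∂ν := by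
  have h1 : ∫ x, u x ∂ν ≤ ∫ x, max (u x) 0 ∂ν :=
    integral_mono hu hu.pos_part fun x => le_max_left _ _
  refine (ENNReal.ofReal_le_ofReal h1).trans ?_
  rw [ofReal_integral_eq_lintegral_ofReal hu.pos_part
    (Filter.Eventually.of_forall fun x => le_max_right _ _)]
  refine lintegral_mono fun x => le_of_eq ?_
  rcases le_total (u x) 0 with h | h
  · simp [max_eq_right h, ENNReal.ofReal_of_nonpos h]
  · simp [max_eq_left h]

lemma jensen_pos (ν : Measure α) [IsProbabilityMeasure ν] {u : α → ℝ} (hu : Integrable u ν) :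
    ENNReal.ofReal (∫ x, u x ∂ν) ^ 2 ≤ ∫⁻ x, ENNReal.ofReal (u x) ^ 2 ∂ν :=
  le_trans (by gcongr; exact ofReal_integral_le ν hu)
    (sq_lintegral_le ν hu.aemeasurable.ennreal_ofReal)

theorem efron_stein_pi (ν : Measure α) [IsProbabilityMeasure ν] (B : ℝ) (n : ℕ) :
    ∀ F : (Fin n → α) → ℝ, Measurable F → (∀ x, |F x| ≤ B) →
      evariance F (Measure.pi fun _ => ν) ≤ ∫⁻ x, ∫⁻ y, ∑ i,
        ENNReal.ofReal (F x - F (Function.update x i y)) ^ 2 ∂ν ∂(Measure.pi fun _ => ν) := by
  induction n with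
  | zero =>
    intro F hF hB
    have : F = fun _ => F default := funext fun x => by rw [Subsingleton.elim x default]
    rw [this]
    simp [evariance]
  | succ n ih =>
    intro F hF hB
    set Q : Measure (Fin n → α) := Measure.pi fun _ => ν with hQ
    have hp := (measurePreserving_piFinSuccAbove (fun _ : Fin (n + 1) => ν) 0).symm
    set e := (MeasurableEquiv.piFinSuccAbove (fun _ : Fin (n + 1) => α) 0).symm with he
    have ee : ∀ y z, e (y, z) = Fin.cons y z := fun y z => by
      simp [he, MeasurableEquiv.piFinSuccAbove, Fin.insertNthEquiv]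
    have hG : Measurable fun p : α × (Fin n → α) => F (e p) := hF.comp e.measurable
    have hGy : ∀ z, Measurable fun y => F (e (y, z)) := fun z => hG.comp measurable_prodMk_right
    let k : (Fin n → α) → ℝ := fun z => ∫ y, F (e (y, z)) ∂ν
    have hk : Measurable k := (hG.stronglyMeasurable.integral_prod_left' (μ := ν)).measurable
    have hkB : ∀ z, |k z| ≤ B := fun z => by
      have := norm_integral_le_of_norm_le_const (μ := ν) (f := fun y => F (e (y, z))) (C := B)
        (Filter.Eventually.of_forall fun y => hB _)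
      simpa using this
    have hL : ∀ z, MemLp (fun y => F (e (y, z))) 2 ν := fun z =>
      memLp_bdd ν (hGy z) fun y => hB _
    have hup : ∀ i : Fin n, Measurable fun p : (Fin n → α) × α => Function.update p.1 i p.2 :=
      fun i => measurable_update'
    have mA : Measurable fun q : (α × (Fin n → α)) × α =>
        ENNReal.ofReal (F (e q.1) - F (e (q.2, q.1.2))) ^ 2 := by fun_prop
    have mB : ∀ i : Fin n, Measurable fun q : (α × (Fin n → α)) × α =>
        ENNReal.ofReal (F (e q.1) - F (e (q.1.1, Function.update q.1.2 i q.2))) ^ 2 := fun i => by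
      have : Measurable fun q : (α × (Fin n → α)) × α => Function.update q.1.2 i q.2 :=
        (hup i).comp (measurable_fst.snd.prodMk measurable_snd)
      fun_prop
    have mB' : Measurable fun q : (α × (Fin n → α)) × α => ∑ i,
        ENNReal.ofReal (F (e q.1) - F (e (q.1.1, Function.update q.1.2 i q.2))) ^ 2 :=
      Finset.measurable_sum _ fun i _ => mB i
    have s1 : evariance F (Measure.pi fun _ => ν)
        ≤ ∫⁻ z, evariance (fun y => F (e (y, z))) ν ∂Q + evariance k Q := by
      refine le_trans le_self_add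
        ((bias_var _ (memLp_bdd _ hF hB) (∫ z, k z ∂Q)).symm.le.trans ?_)
      rw [← hp.lintegral_comp_emb e.measurableEmbedding,
        lintegral_prod_symm _ (Measurable.aemeasurable (by fun_prop))]
      simp only [bias_var ν (hL _)]
      have mk : Measurable fun z => ‖k z - ∫ z, k z ∂Q‖ₑ ^ 2 := by fun_prop
      exact (lintegral_add_right _ mk).le
    have s2 : ∫⁻ z, evariance (fun y => F (e (y, z))) ν ∂Q
        ≤ ∫⁻ p, ∫⁻ w, ENNReal.ofReal (F (e p) - F (e (w, p.2))) ^ 2 ∂ν ∂(ν.prod Q) := by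
      rw [lintegral_prod_symm _ (mA.lintegral_prod_right' (ν := ν)).aemeasurable]
      exact lintegral_mono fun z => var_two ν (hGy z) (hL z)
    have s3 : evariance k Q ≤ ∫⁻ p, ∫⁻ w, ∑ i, ENNReal.ofReal
        (F (e p) - F (e (p.1, Function.update p.2 i w))) ^ 2 ∂ν ∂(ν.prod Q) := by
      rw [lintegral_prod_symm _ (mB'.lintegral_prod_right' (ν := ν)).aemeasurable]
      refine (ih k hk hkB).trans (lintegral_mono fun z => ?_)
      have mz : Measurable fun q : α × α => ((q.1, z), q.2) := by fun_prop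
      rw [lintegral_lintegral_swap (f := fun y w => ∑ i, ENNReal.ofReal
        (F (e (y, z)) - F (e (y, Function.update z i w))) ^ 2) (mB'.comp mz).aemeasurable]
      refine lintegral_mono fun w => ?_
      have mw : Measurable fun y : α => ((y, z), w) := by fun_prop
      refine le_trans (Finset.sum_le_sum fun i _ => ?_)
        (lintegral_finsetSum _ fun i _ => (mB i).comp mw).ge
      have i1 := (hL z).integrable (by norm_num)
      have i2 := (hL (Function.update z i w)).integrable (by norm_num)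
      simp only [k]
      rw [← integral_sub i1 i2]
      exact jensen_pos ν (i1.sub i2)
    refine s1.trans ((add_le_add s2 s3).trans (le_of_eq ?_))
    rw [← hp.lintegral_comp_emb e.measurableEmbedding,
      ← lintegral_add_left (mA.lintegral_prod_right' (ν := ν))]
    refine lintegral_congr fun p => ?_
    have mp : Measurable fun w : α => (p, w) := by fun_prop
    refine (lintegral_add_left (mA.comp mp) _).symm.trans (lintegral_congr fun w => ?_)
    obtain ⟨y, z⟩ := p
    rw [Fin.sum_univ_succ]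
    simp only [Function.comp, ee, Fin.update_cons_zero, Fin.cons_update]

end Pool.Agent.Lib.MP_63bd8a_pr
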