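import Pool.Agent.Lib.MP_63bd8a_pr.Main

/-! Rescaling of the counterexample: every constant, every deviation. -/

set_option autoImplicit false
open MeasureTheory ProbabilityTheory Filter Topology

namespace Pool.Agent.Lib.MP_63bd8a_pr

/-- dilation as a homeomorphism -/
noncomputable def dil (n : ℕ) {s : ℝ} (hs : 0 < s) :
    EuclideanSpace ℝ (Fin n) ≃ₜ EuclideanSpace ℝ (Fin n) := Homeomorph.smulOfNeZero s hs.ne'

lemma dil_apply (n : ℕ) {s : ℝ} (hs : 0 < s) (x : EuclideanSpace ℝ (Fin n)) :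
    dil n hs x = s • x := rfl

lemma slope_dil {n : ℕ} {s : ℝ} (hs : 0 < s) (g : EuclideanSpace ℝ (Fin n) → ℝ)
    (x : EuclideanSpace ℝ (Fin n)) :
    slope' (fun y => g (s • y)) x = ENNReal.ofReal s * slope' g (s • x) := by
  have e : 𝓝[≠] (s • x) = map (dil n hs) (𝓝[≠] x) := ((dil n hs).map_punctured_nhds_eq x).symm
  unfold slope'
  rw [← ENNReal.limsup_const_mul_of_ne_top ENNReal.ofReal_ne_top, e, ← Filter.limsup_comp]
  refine limsup_congr (eventually_nhdsWithin_of_forall fun y hy => ?_)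
  have h : 0 < dist y x := dist_pos.2 hy
  simp only [Function.comp, dil_apply]
  rw [← ENNReal.ofReal_mul hs.le, dist_smul₀, Real.norm_eq_abs, abs_of_pos hs]
  congr 1
  field_simp

lemma slope_eq {n : ℕ} (g : EuclideanSpace ℝ (Fin n) → ℝ) (x : EuclideanSpace ℝ (Fin n)) :
    limsup (fun y => ‖g y - g x‖ₑ / ‖y - x‖ₑ) (𝓝[≠] x) = slope' g x := by
  refine limsup_congr (eventually_nhdsWithin_of_forall fun y hy => ?_)
  have h : 0 < dist y x := dist_pos.2 hy
  rw [ENNReal.ofReal_div_of_pos h, dist_eq_norm, ofReal_norm, ← Real.norm_eq_abs, ofReal_norm]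

/-- the dilated measure -/
noncomputable def nu (n : ℕ) {s : ℝ} (hs : 0 < s) : Measure (EuclideanSpace ℝ (Fin n)) :=
  (mu n).map (dil n hs).toMeasurableEquiv

lemma poincare_nu (n : ℕ) (hn : 2 ≤ n) {s : ℝ} (hs : 0 < s) (g : EuclideanSpace ℝ (Fin n) → ℝ)
    (hg : ConvexOn ℝ Set.univ g) :
    evariance g (nu n hs) ≤ ENNReal.ofReal (4 * s ^ 2) * ∫⁻ x, (slope' g x) ^ 2 ∂(nu n hs) := by
  have hc : ConvexOn ℝ Set.univ fun y => g (s • y) := by
    have := hg.comp_linearMap (s • LinearMap.id : EuclideanSpace ℝ (Fin n) →ₗ[ℝ] _)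
    simpa [Function.comp_def] using this
  have h := poincare_mu n hn _ hc
  simp only [slope_dil hs, mul_pow] at h
  rw [lintegral_const_mul' _ _ (by finiteness), ← mul_assoc, ← ENNReal.ofReal_pow hs.le,
    ← ENNReal.ofReal_mul (by norm_num)] at h
  unfold evariance at h ⊢
  unfold nu
  rw [lintegral_map_equiv, lintegral_map_equiv, integral_map_equiv]
  exact h

lemma nu_apply (n : ℕ) (hn : 1 ≤ n) {s : ℝ} (hs : 0 < s) (A : Set ℝ) (hA : MeasurableSet A) :
    nu n hs {x | ‖x‖ ∈ A} = ENNReal.ofReal (1 / n) * A.indicator 1 0 +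
      ENNReal.ofReal (1 - 1 / n) * A.indicator 1 (s * √n) := by
  have m : MeasurableSet {x : EuclideanSpace ℝ (Fin n) | ‖s • x‖ ∈ A} :=
    (by fun_prop : Measurable fun x : EuclideanSpace ℝ (Fin n) => ‖s • x‖) hA
  unfold nu
  rw [MeasurableEquiv.map_apply]
  change mu n {x | ‖s • x‖ ∈ A} = _
  rw [mu_apply n _ m, ← sum_const_cube n hn, Finset.sum_mul]
  congr 1
  · by_cases h : (0 : ℝ) ∈ A <;> simp [Set.indicator, h]
  · refine Finset.sum_congr rfl fun σ _ => ?_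
    have : ‖s • pt σ‖ = s * √n := by rw [norm_smul, norm_pt, Real.norm_eq_abs, abs_of_pos hs]
    by_cases h : s * √n ∈ A <;> simp [Set.indicator, h, this]

lemma nu_fin (n : ℕ) {s : ℝ} (hs : 0 < s) :
    ∃ F : Finset (EuclideanSpace ℝ (Fin n)), nu n hs (F : Set _)ᶜ = 0 := by
  classical
  refine ⟨insert 0 (Finset.univ.image fun σ : Fin n → Bool => s • pt σ), ?_⟩
  unfold nu
  rw [MeasurableEquiv.map_apply, mu_apply n _
    ((dil n hs).toMeasurableEquiv.measurable (Finset.measurableSet _).compl)]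
  simp only [Set.indicator, Set.mem_preimage, Set.mem_compl_iff, Homeomorph.toMeasurableEquiv_coe,
    dil_apply]
  rw [if_neg (by simp), mul_zero, zero_add]
  exact Finset.sum_eq_zero fun σ _ => by rw [if_neg (by simp), mul_zero]

theorem hedge (l t : ℝ) (hl : 0 < l) (ht : 0 < t) : ∃ (n : ℕ) (μ : Measure (EuclideanSpace ℝ (Fin n)))
    (m : ℝ), IsProbabilityMeasure μ ∧ (∃ F : Finset (EuclideanSpace ℝ (Fin n)), μ (F : Set _)ᶜ = 0) ∧
    (∀ g : EuclideanSpace ℝ (Fin n) → ℝ, ConvexOn ℝ Set.univ g →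
      evariance g μ ≤ ENNReal.ofReal (1 / l) * ∫⁻ x, (slope' g x) ^ 2 ∂μ) ∧
    (∀ m', (1 / 2 ≤ μ {x | m' ≤ ‖x‖} ∧ 1 / 2 ≤ μ {x | ‖x‖ ≤ m'}) ↔ m' = m) ∧
    ENNReal.ofReal (1 / (4 * l * t ^ 2 + 3)) ≤ μ {x | ‖x‖ ≤ m - t} := by
  have hq : 0 < √l := Real.sqrt_pos.2 hl
  have hs : 0 < 1 / (2 * √l) := by positivity
  obtain ⟨n, h3, h1, h2⟩ : ∃ n : ℕ, 3 ≤ n ∧ 4 * l * t ^ 2 ≤ n ∧ (n : ℝ) ≤ 4 * l * t ^ 2 + 3 := by
    refine ⟨⌊4 * l * t ^ 2⌋₊ + 3, by omega, ?_, ?_⟩ <;> push_cast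
    · linarith [Nat.lt_floor_add_one (4 * l * t ^ 2)]
    · linarith [Nat.floor_le (show 0 ≤ 4 * l * t ^ 2 by positivity)]
  have h3' : (3 : ℝ) ≤ n := by exact_mod_cast h3
  have e4 : 4 * (1 / (2 * √l)) ^ 2 = 1 / l := by
    rw [div_pow, mul_pow, Real.sq_sqrt hl.le]; field_simp; norm_num
  have hm : t ≤ 1 / (2 * √l) * √n := by
    rw [one_div, inv_mul_eq_div, le_div_iff₀ (by positivity)]
    refine Real.le_sqrt_of_sq_le ?_
    rw [mul_pow, mul_pow, Real.sq_sqrt hl.le]; linarith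
  have half : (1 / 2 : ENNReal) = ENNReal.ofReal (1 / 2) := by
    rw [ENNReal.ofReal_div_of_pos (by norm_num)]; simp
  have n3 : (1 : ℝ) / n ≤ 1 / 3 := one_div_le_one_div_of_le (by norm_num) h3'
  have big : (1 / 2 : ENNReal) ≤ ENNReal.ofReal (1 - 1 / n) := by
    rw [half]; exact ENNReal.ofReal_le_ofReal (by linarith)
  have small : ENNReal.ofReal (1 / n) < 1 / 2 := by
    rw [half]; exact (ENNReal.ofReal_lt_ofReal_iff (by norm_num)).2 (by linarith)
  have up := fun r => nu_apply n (by omega) hs (Set.Ici r) measurableSet_Ici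
  have lo := fun r => nu_apply n (by omega) hs (Set.Iic r) measurableSet_Iic
  simp only [Set.mem_Ici, Set.mem_Iic] at up lo
  have := isProb_mu n (by omega)
  refine ⟨n, nu n hs, 1 / (2 * √l) * √n, Measure.isProbabilityMeasure_map
    (dil n hs).toMeasurableEquiv.measurable.aemeasurable, nu_fin n hs, fun g hg => ?_,
    fun m' => ⟨fun h => ?_, ?_⟩, ?_⟩
  · rw [← e4]; exact poincare_nu n (by omega) hs g hg
  · rw [up, lo] at h
    have k : ∀ A : Set ℝ, 1 / 2 ≤ ENNReal.ofReal (1 / n) * A.indicator 1 0 +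
        ENNReal.ofReal (1 - 1 / n) * A.indicator 1 (1 / (2 * √l) * √n) →
        1 / (2 * √l) * √n ∈ A := fun A hA => by
      by_contra hn
      rw [Set.indicator_of_notMem hn, mul_zero, add_zero] at hA
      refine absurd (hA.trans ?_) small.not_ge
      exact mul_le_of_le_one_right' (Set.indicator_le_self' (fun _ _ => zero_le_one) _)
    exact le_antisymm (k _ h.1) (k _ h.2)
  · rintro rfl
    rw [up, lo]
    constructor <;> refine le_trans ?_ le_add_self <;>
      rw [Set.indicator_of_mem (by simp), Pi.one_apply, mul_one] <;> exact big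
  · rw [lo]
    refine le_trans ?_ le_self_add
    rw [Set.indicator_of_mem (by simpa using hm), Pi.one_apply, mul_one]
    exact ENNReal.ofReal_le_ofReal (one_div_le_one_div_of_le (by linarith) h2)

end Pool.Agent.Lib.MP_63bd8a_pr
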