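import Mathlib
import Pool.Agent.Lib.MP_63bd8a_pr.Cube

set_option autoImplicit false
open Finset

namespace Pool.Agent.Lib.MP_63bd8a_pr

/-- the local slope used in the frozen statement -/
noncomputable def slope' {n : ℕ} (g : EuclideanSpace ℝ (Fin n) → ℝ) (x : EuclideanSpace ℝ (Fin n)) :
    ENNReal :=
  Filter.limsup (fun y => ENNReal.ofReal (|g y - g x| / dist y x)) (nhdsWithin x {x}ᶜ)

lemma le_slope' {n : ℕ} (g : EuclideanSpace ℝ (Fin n) → ℝ) (x v : EuclideanSpace ℝ (Fin n))
    (hv : v ≠ 0) (c : ℝ) (h : ∀ t : ℝ, 0 < t → t * c ≤ g (x + t • v) - g x) :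
    ENNReal.ofReal (c / ‖v‖) ≤ slope' g x := by
  unfold slope'
  apply Filter.le_limsup_of_frequently_le'
  have ht : Filter.Tendsto (fun t : ℝ => x + t • v) (nhdsWithin 0 (Set.Ioi 0))
      (nhdsWithin x {x}ᶜ) := by
    apply tendsto_nhdsWithin_of_tendsto_nhds_of_eventually_within
    · have : Continuous (fun t : ℝ => x + t • v) := by fun_prop
      have h2 := this.tendsto 0
      simp only [zero_smul, add_zero] at h2
      exact h2.mono_left nhdsWithin_le_nhds
    · filter_upwards [self_mem_nhdsWithin] with t ht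
      have ht' : (0 : ℝ) < t := ht
      simp [hv, ht'.ne']
  apply ht.frequently
  apply Filter.Eventually.frequently
  filter_upwards [self_mem_nhdsWithin] with t ht
  have ht' : (0 : ℝ) < t := ht
  apply ENNReal.ofReal_le_ofReal
  have hn : 0 < ‖v‖ := norm_pos_iff.mpr hv
  have hd : dist (x + t • v) x = t * ‖v‖ := by
    rw [dist_eq_norm]; simp [norm_smul, abs_of_pos ht']
  rw [hd, div_le_div_iff₀ hn (by positivity)]
  have := h t ht'
  have h3 := le_abs_self (g (x + t • v) - g x)
  nlinarith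

/-- the sign of a bit -/
def sgn (b : Bool) : ℝ := if b then 1 else -1

lemma sgn_sq (b : Bool) : sgn b ^ 2 = 1 := by cases b <;> simp [sgn]
lemma sgn_not (b : Bool) : sgn (!b) = - sgn b := by cases b <;> simp [sgn]

/-- vertex of the cube in Euclidean space -/
def pt {n : ℕ} (σ : Fin n → Bool) : EuclideanSpace ℝ (Fin n) := WithLp.toLp 2 fun i => sgn (σ i)

lemma pt_apply {n : ℕ} (σ : Fin n → Bool) (i : Fin n) : pt σ i = sgn (σ i) := rfl

lemma norm_pt {n : ℕ} (σ : Fin n → Bool) : ‖pt σ‖ = Real.sqrt n := by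
  rw [EuclideanSpace.norm_eq]
  congr 1
  simp [pt_apply, sgn_sq]

lemma slope_radial {n : ℕ} (hn : 0 < n) (g : EuclideanSpace ℝ (Fin n) → ℝ)
    (hg : ConvexOn ℝ Set.univ g) (σ : Fin n → Bool) :
    ENNReal.ofReal ((g (pt σ) - g 0) / Real.sqrt n) ≤ slope' g (pt σ) := by
  have hpos : 0 < Real.sqrt n := Real.sqrt_pos.mpr (by exact_mod_cast hn)
  have hv : pt σ ≠ 0 := by
    rw [← norm_pos_iff, norm_pt]; exact hpos
  rw [← norm_pt σ]
  apply le_slope' g _ _ hv
  intro t ht
  have h1 : (0 : ℝ) < 1 + t := by linarith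
  have := hg.2 (Set.mem_univ (pt σ + t • pt σ)) (Set.mem_univ 0)
    (show (0 : ℝ) ≤ 1 / (1 + t) by positivity) (show (0 : ℝ) ≤ t / (1 + t) by positivity)
    (by field_simp)
  have e : (1 / (1 + t)) • (pt σ + t • pt σ) + (t / (1 + t)) • (0 : EuclideanSpace ℝ (Fin n))
      = pt σ := by
    ext i
    simp
    field_simp
  rw [e] at this
  simp only [smul_eq_mul] at this
  have h2 : (1 + t) * g (pt σ) ≤ g (pt σ + t • pt σ) + t * g 0 := by
    have := mul_le_mul_of_nonneg_left this h1.le
    have e2 : (1 + t) * (1 / (1 + t) * g (pt σ + t • pt σ) + t / (1 + t) * g 0)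
        = g (pt σ + t • pt σ) + t * g 0 := by field_simp
    linarith
  linarith

lemma slope_cube {n : ℕ} (g : EuclideanSpace ℝ (Fin n) → ℝ)
    (hg : ConvexOn ℝ Set.univ g) (σ : Fin n → Bool) :
    ENNReal.ofReal (Real.sqrt (∑ i, (max (g (pt σ) - g (pt (flipAt i σ))) 0) ^ 2) / 2)
      ≤ slope' g (pt σ) := by
  set a : Fin n → ℝ := fun i => max (g (pt σ) - g (pt (flipAt i σ))) 0 with ha
  have ha0 : ∀ i, 0 ≤ a i := fun i => le_max_right _ _
  set A : ℝ := ∑ i, a i ^ 2 with hA
  have hA0 : 0 ≤ A := Finset.sum_nonneg fun i _ => sq_nonneg _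
  rcases hA0.eq_or_lt with h0 | hpos
  · rw [← h0]; simp
  let v : EuclideanSpace ℝ (Fin n) := WithLp.toLp 2 fun i => a i * sgn (σ i)
  have hvn : ‖v‖ = Real.sqrt A := by
    rw [EuclideanSpace.norm_eq]
    congr 1
    refine Finset.sum_congr rfl fun i _ => ?_
    simp [v, mul_pow, sgn_sq]
  have hs : 0 < Real.sqrt A := Real.sqrt_pos.mpr hpos
  have hv : v ≠ 0 := by rw [← norm_pos_iff, hvn]; exact hs
  have e : Real.sqrt A / 2 = (A / 2) / ‖v‖ := by
    rw [hvn]; field_simp; exact Real.sq_sqrt hA0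
  rw [e]
  apply le_slope' g _ _ hv
  intro t ht
  set T : ℝ := ∑ i, t * a i / 2 with hT
  have hT0 : 0 ≤ T := Finset.sum_nonneg fun i _ => by have := ha0 i; positivity
  have h1 : (0 : ℝ) < 1 + T := by linarith
  have key := hg.map_add_sum_le (t := Finset.univ) (w := fun i => t * a i / 2 / (1 + T))
    (p := fun i => pt (flipAt i σ)) (v := 1 / (1 + T)) (q := pt σ + t • v)
    (fun i _ => by have := ha0 i; positivity)
    (by rw [← Finset.sum_div, ← hT]; field_simp) (fun _ _ => Set.mem_univ _) (by positivity)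
    (Set.mem_univ _)
  have e2 : (1 / (1 + T)) • (pt σ + t • v)
      + ∑ i, (t * a i / 2 / (1 + T)) • pt (flipAt i σ) = pt σ := by
    ext j
    have hj : ∑ i, t * a i / 2 / (1 + T) * sgn (flipAt i σ j)
        = (T * sgn (σ j) - t * a j * sgn (σ j)) / (1 + T) := by
      have : ∀ i, t * a i / 2 / (1 + T) * sgn (flipAt i σ j)
          = (t * a i / 2 * sgn (σ j) - (if i = j then t * a j * sgn (σ j) else 0)) / (1 + T) := by
        intro i
        by_cases hij : i = j
        · subst hij
          simp only [flipAt, Function.update_self, sgn_not, if_true]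
          ring
        · have : flipAt i σ j = σ j := Function.update_of_ne (Ne.symm hij) _ _
          rw [this, if_neg hij]
          ring
      rw [Finset.sum_congr rfl fun i _ => this i, ← Finset.sum_div, Finset.sum_sub_distrib,
        ← Finset.sum_mul, ← hT]
      simp
    simp only [PiLp.add_apply, PiLp.smul_apply, smul_eq_mul, WithLp.ofLp_sum, Finset.sum_apply,
      WithLp.ofLp_smul, Pi.smul_apply, pt_apply]
    rw [hj]
    simp only [v]
    field_simp
    ring
  rw [e2] at key
  simp only [smul_eq_mul] at key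
  have h2 : (1 + T) * g (pt σ) ≤ g (pt σ + t • v) + ∑ i, t * a i / 2 * g (pt (flipAt i σ)) := by
    have := mul_le_mul_of_nonneg_left key h1.le
    have e3 : (1 + T) * (1 / (1 + T) * g (pt σ + t • v)
        + ∑ i, t * a i / 2 / (1 + T) * g (pt (flipAt i σ)))
        = g (pt σ + t • v) + ∑ i, t * a i / 2 * g (pt (flipAt i σ)) := by
      rw [mul_add, Finset.mul_sum]
      congr 1
      · field_simp
      · refine Finset.sum_congr rfl fun i _ => ?_
        field_simp
    linarith
  have h3 : t * (A / 2) = T * g (pt σ) - ∑ i, t * a i / 2 * g (pt (flipAt i σ)) := by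
    rw [hA, hT, Finset.sum_mul, ← Finset.sum_sub_distrib, Finset.sum_div, Finset.mul_sum]
    refine Finset.sum_congr rfl fun i _ => ?_
    have : a i ^ 2 = a i * (g (pt σ) - g (pt (flipAt i σ))) := by
      rcases le_total (g (pt σ) - g (pt (flipAt i σ))) 0 with h | h
      · have : a i = 0 := max_eq_right h
        rw [this]; ring
      · have : a i = g (pt σ) - g (pt (flipAt i σ)) := max_eq_left h
        rw [← this]; ring
    rw [this]; ring
  linarith

lemma jensen_cube {n : ℕ} (g : EuclideanSpace ℝ (Fin n) → ℝ) (hg : ConvexOn ℝ Set.univ g) :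
    (2 : ℝ) ^ n * g 0 ≤ ∑ σ : Fin n → Bool, g (pt σ) := by
  let e : (Fin n → Bool) ≃ (Fin n → Bool) :=
    { toFun := fun σ i => !σ i, invFun := fun σ i => !σ i,
      left_inv := fun σ => by ext i; simp, right_inv := fun σ => by ext i; simp }
  have h1 : ∑ σ : Fin n → Bool, g (pt (e σ)) = ∑ σ : Fin n → Bool, g (pt σ) :=
    e.sum_comp (fun σ => g (pt σ))
  have h2 : ∀ σ : Fin n → Bool, 2 * g 0 ≤ g (pt σ) + g (pt (e σ)) := by
    intro σ
    have := hg.2 (Set.mem_univ (pt σ)) (Set.mem_univ (pt (e σ)))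
      (show (0 : ℝ) ≤ 1 / 2 by norm_num) (show (0 : ℝ) ≤ 1 / 2 by norm_num) (by norm_num)
    have e2 : (1 / 2 : ℝ) • pt σ + (1 / 2 : ℝ) • pt (e σ) = 0 := by
      ext i
      simp [pt_apply, e, sgn_not]
    rw [e2] at this
    simp only [smul_eq_mul] at this
    linarith
  have h3 := Finset.sum_le_sum (s := Finset.univ) fun σ _ => h2 σ
  rw [Finset.sum_add_distrib, h1] at h3
  simp only [Finset.sum_const, Finset.card_univ, Fintype.card_fun, Fintype.card_bool,
    Fintype.card_fin, nsmul_eq_mul, Nat.cast_pow, Nat.cast_ofNat] at h3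
  linarith

end Pool.Agent.Lib.MP_63bd8a_pr
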