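import Mathlib
import Pool.Agent.Lib.MP_63bd8a_pr.Slope

set_option autoImplicit false
open Finset MeasureTheory ProbabilityTheory

namespace Pool.Agent.Lib.MP_63bd8a_pr

/-- mass 1/n at the origin, the rest spread uniformly on the vertices of the cube -/
noncomputable def mu (n : ℕ) : Measure (EuclideanSpace ℝ (Fin n)) :=
  ENNReal.ofReal (1 / n) • Measure.dirac 0
    + ∑ σ : Fin n → Bool, ENNReal.ofReal ((1 - 1 / n) / 2 ^ n) • Measure.dirac (pt σ)

lemma lintegral_mu (n : ℕ) (F : EuclideanSpace ℝ (Fin n) → ENNReal) :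
    ∫⁻ x, F x ∂(mu n) = ENNReal.ofReal (1 / n) * F 0
      + ∑ σ : Fin n → Bool, ENNReal.ofReal ((1 - 1 / n) / 2 ^ n) * F (pt σ) := by
  unfold mu
  rw [lintegral_add_measure, lintegral_finsetSum_measure]
  simp only [lintegral_smul_measure, lintegral_dirac, smul_eq_mul]

lemma one_div_le_one {n : ℕ} (hn : 1 ≤ n) : (1 : ℝ) / n ≤ 1 := by
  rw [div_le_one (by exact_mod_cast hn)]; exact_mod_cast hn

lemma integral_mu (n : ℕ) (hn : 1 ≤ n) (g : EuclideanSpace ℝ (Fin n) → ℝ) :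
    ∫ x, g x ∂(mu n) = 1 / n * g 0 + ∑ σ : Fin n → Bool, (1 - 1 / n) / 2 ^ n * g (pt σ) := by
  have h1 := one_div_le_one hn
  have hi : ∀ (c : ℝ) (p : EuclideanSpace ℝ (Fin n)),
      Integrable g (ENNReal.ofReal c • Measure.dirac p) := fun c p =>
    (integrable_dirac (by simp)).smul_measure ENNReal.ofReal_ne_top
  unfold mu
  rw [integral_add_measure (hi _ _) (integrable_finsetSum_measure.2 fun σ _ => hi _ _),
    integral_finsetSum_measure fun σ _ => hi _ _]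
  simp only [integral_smul_measure, integral_dirac, smul_eq_mul]
  rw [ENNReal.toReal_ofReal (by positivity), ENNReal.toReal_ofReal (by
    apply div_nonneg <;> [linarith; positivity])]

lemma mu_apply (n : ℕ) (s : Set (EuclideanSpace ℝ (Fin n))) (hs : MeasurableSet s) :
    mu n s = ENNReal.ofReal (1 / n) * s.indicator 1 0
      + ∑ σ : Fin n → Bool, ENNReal.ofReal ((1 - 1 / n) / 2 ^ n) * s.indicator 1 (pt σ) := by
  rw [← lintegral_indicator_one hs, lintegral_mu]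

lemma sum_const_cube (n : ℕ) (hn : 1 ≤ n) :
    ∑ _σ : Fin n → Bool, ENNReal.ofReal ((1 - 1 / n) / 2 ^ n) = ENNReal.ofReal (1 - 1 / n) := by
  have h1 := one_div_le_one hn
  rw [← ENNReal.ofReal_sum_of_nonneg (fun _ _ => by apply div_nonneg <;> [linarith; positivity])]
  congr 1
  simp only [Finset.sum_const, Finset.card_univ, Fintype.card_fun, Fintype.card_bool,
    Fintype.card_fin, nsmul_eq_mul, Nat.cast_pow, Nat.cast_ofNat]
  field_simp

lemma isProb_mu (n : ℕ) (hn : 1 ≤ n) : IsProbabilityMeasure (mu n) := by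
  constructor
  have h1 := one_div_le_one hn
  rw [mu_apply n _ MeasurableSet.univ]
  simp only [Set.indicator_univ, Pi.one_apply, mul_one]
  rw [sum_const_cube n hn, ← ENNReal.ofReal_add (by positivity) (by linarith)]
  simp

/-- the real-variable core of the convex Poincare inequality -/
lemma real_core (n : ℕ) (hn : 2 ≤ n) (g0 : ℝ) (f s : (Fin n → Bool) → ℝ)
    (hJ : (2 : ℝ) ^ n * g0 ≤ ∑ σ, f σ)
    (h1 : ∀ σ, (f σ - g0) / Real.sqrt n ≤ s σ)
    (h2 : ∀ σ, Real.sqrt (∑ i, (max (f σ - f (flipAt i σ)) 0) ^ 2) / 2 ≤ s σ) (M : ℝ)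
    (hM : M = 1 / n * g0 + ∑ σ, (1 - 1 / n) / 2 ^ n * f σ) :
    1 / n * (g0 - M) ^ 2 + ∑ σ, (1 - 1 / n) / 2 ^ n * (f σ - M) ^ 2
      ≤ 4 * ∑ σ, (1 - 1 / n) / 2 ^ n * s σ ^ 2 := by
  have hn' : (2 : ℝ) ≤ n := by exact_mod_cast hn
  have hnpos : (0 : ℝ) < n := by linarith
  have hP : (0 : ℝ) < 2 ^ n := by positivity
  set P : ℝ := 2 ^ n with hPdef
  set ε : ℝ := 1 / n with hε
  have hε0 : 0 < ε := by positivity
  have hε2 : ε ≤ 1 / 2 := by rw [hε, div_le_div_iff₀ hnpos (by norm_num)]; linarith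
  have hεn : ε * n = 1 := by rw [hε]; field_simp
  have hcard : ((Finset.univ : Finset (Fin n → Bool)).card : ℝ) = P := by
    simp [hPdef]
  set S1 := ∑ σ, f σ with hS1
  set S2 := ∑ σ, f σ ^ 2 with hS2
  set Q := ∑ σ, s σ ^ 2 with hQ
  have hs0 : ∀ σ, 0 ≤ s σ := fun σ => le_trans (by positivity) (h2 σ)
  have hQ0 : 0 ≤ Q := Finset.sum_nonneg fun _ _ => sq_nonneg _
  -- Poincare on the cube
  have hA : P * S2 - S1 ^ 2 ≤ 2 * P * Q := by
    have e := efron_stein n f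
    simp only [sum_sq_flip] at e
    rw [← Finset.mul_sum, Finset.sum_comm] at e
    have : ∑ σ, ∑ i, (max (f σ - f (flipAt i σ)) 0) ^ 2 ≤ 4 * Q := by
      rw [hQ, Finset.mul_sum]
      refine Finset.sum_le_sum fun σ _ => ?_
      have hnn : 0 ≤ ∑ i, (max (f σ - f (flipAt i σ)) 0) ^ 2 :=
        Finset.sum_nonneg fun _ _ => sq_nonneg _
      have h3 := h2 σ
      have h4 := Real.sq_sqrt hnn
      have h5 := Real.sqrt_nonneg (∑ i, (max (f σ - f (flipAt i σ)) 0) ^ 2)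
      nlinarith
    nlinarith
  -- the atom
  have hB : (S1 - P * g0) ^ 2 ≤ n * (P * Q) := by
    have hsq : 0 < Real.sqrt n := Real.sqrt_pos.mpr hnpos
    have e1 : S1 - P * g0 ≤ Real.sqrt n * ∑ σ, s σ := by
      have : S1 - P * g0 = ∑ σ, (f σ - g0) := by
        rw [Finset.sum_sub_distrib, Finset.sum_const, nsmul_eq_mul, hcard]
      rw [this, Finset.mul_sum]
      refine Finset.sum_le_sum fun σ _ => ?_
      have := h1 σ
      rw [div_le_iff₀ hsq] at this
      linarith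
    have e2 : (∑ σ, s σ) ^ 2 ≤ P * Q := by
      have := sq_sum_le_card_mul_sum_sq (s := Finset.univ) (f := s)
      rwa [hcard] at this
    have e3 : 0 ≤ S1 - P * g0 := by linarith
    calc (S1 - P * g0) ^ 2 ≤ (Real.sqrt n * ∑ σ, s σ) ^ 2 := by gcongr
      _ = n * (∑ σ, s σ) ^ 2 := by rw [mul_pow, Real.sq_sqrt hnpos.le]
      _ ≤ n * (P * Q) := by gcongr
  have eM : M = ε * g0 + (1 - ε) / P * S1 := by rw [hM, ← Finset.mul_sum]
  have eL : ∑ σ, (1 - ε) / P * (f σ - M) ^ 2 = (1 - ε) / P * (S2 - 2 * M * S1 + P * M ^ 2) := by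
    rw [← Finset.mul_sum]
    congr 1
    have : ∀ σ, (f σ - M) ^ 2 = f σ ^ 2 - 2 * M * f σ + M ^ 2 := fun σ => by ring
    simp only [this]
    rw [Finset.sum_add_distrib, Finset.sum_sub_distrib, ← Finset.mul_sum, Finset.sum_const,
      nsmul_eq_mul, hcard]
  rw [eL, ← Finset.mul_sum, ← hQ]
  have key : ε * (g0 - M) ^ 2 + (1 - ε) / P * (S2 - 2 * M * S1 + P * M ^ 2)
      = (1 - ε) / P ^ 2 * ((P * S2 - S1 ^ 2) + ε * (S1 - P * g0) ^ 2) := by
    rw [eM]; field_simp; ring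
  rw [key]
  have h6 : ε * (S1 - P * g0) ^ 2 ≤ P * Q := by
    calc ε * (S1 - P * g0) ^ 2 ≤ ε * (n * (P * Q)) := by gcongr
      _ = P * Q := by rw [← mul_assoc, hεn, one_mul]
  have h7 : 0 ≤ (1 - ε) / P ^ 2 := by apply div_nonneg <;> [linarith; positivity]
  calc (1 - ε) / P ^ 2 * ((P * S2 - S1 ^ 2) + ε * (S1 - P * g0) ^ 2)
      ≤ (1 - ε) / P ^ 2 * (4 * (P * Q)) := by
        apply mul_le_mul_of_nonneg_left _ h7
        have : 0 ≤ P * Q := by positivity
        linarith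
    _ = 4 * ((1 - ε) / P * Q) := by field_simp

lemma poincare_mu (n : ℕ) (hn : 2 ≤ n) (g : EuclideanSpace ℝ (Fin n) → ℝ)
    (hg : ConvexOn ℝ Set.univ g) :
    evariance g (mu n) ≤ ENNReal.ofReal 4 * ∫⁻ x, (slope' g x) ^ 2 ∂(mu n) := by
  have h1 := one_div_le_one (show 1 ≤ n by omega)
  have hw : (0 : ℝ) ≤ (1 - 1 / n) / 2 ^ n := by apply div_nonneg <;> [linarith; positivity]
  let s : (Fin n → Bool) → ℝ := fun σ => max ((g (pt σ) - g 0) / Real.sqrt n)
    (Real.sqrt (∑ i, (max (g (pt σ) - g (pt (flipAt i σ))) 0) ^ 2) / 2)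
  have hs0 : ∀ σ, 0 ≤ s σ := fun σ => le_max_of_le_right (by positivity)
  have hs : ∀ σ, ENNReal.ofReal (s σ) ≤ slope' g (pt σ) := by
    intro σ
    rcases max_choice ((g (pt σ) - g 0) / Real.sqrt n)
      (Real.sqrt (∑ i, (max (g (pt σ) - g (pt (flipAt i σ))) 0) ^ 2) / 2) with h | h
    · simp only [s]; rw [h]; exact slope_radial (by omega) g hg σ
    · simp only [s]; rw [h]; exact slope_cube g hg σ
  have core := real_core n hn (g 0) (fun σ => g (pt σ)) s (jensen_cube g hg)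
    (fun σ => le_max_left _ _) (fun σ => le_max_right _ _) _ (integral_mu n (by omega) g)
  have hsq : ∀ y : ℝ, ‖y‖ₑ ^ 2 = ENNReal.ofReal (y ^ 2) := by
    intro y
    rw [← ofReal_norm, ← ENNReal.ofReal_pow (norm_nonneg _), Real.norm_eq_abs, sq_abs]
  unfold evariance
  rw [lintegral_mu, lintegral_mu]
  simp only [hsq]
  calc _ = ENNReal.ofReal (1 / n * (g 0 - ∫ x, g x ∂(mu n)) ^ 2
        + ∑ σ : Fin n → Bool, (1 - 1 / n) / 2 ^ n * (g (pt σ) - ∫ x, g x ∂(mu n)) ^ 2) := by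
        rw [ENNReal.ofReal_add (by positivity) (Finset.sum_nonneg fun _ _ => by positivity),
          ENNReal.ofReal_sum_of_nonneg (fun _ _ => by positivity),
          ENNReal.ofReal_mul (by positivity)]
        congr 1
        refine Finset.sum_congr rfl fun σ _ => ?_
        rw [ENNReal.ofReal_mul hw]
    _ ≤ ENNReal.ofReal (4 * ∑ σ, (1 - 1 / n) / 2 ^ n * s σ ^ 2) := ENNReal.ofReal_le_ofReal core
    _ = ENNReal.ofReal 4 * ∑ σ : Fin n → Bool,
          ENNReal.ofReal ((1 - 1 / n) / 2 ^ n) * ENNReal.ofReal (s σ) ^ 2 := by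
        rw [ENNReal.ofReal_mul (by norm_num),
          ENNReal.ofReal_sum_of_nonneg (fun _ _ => by positivity)]
        congr 1
        refine Finset.sum_congr rfl fun σ _ => ?_
        rw [ENNReal.ofReal_mul hw, ENNReal.ofReal_pow (hs0 σ)]
    _ ≤ _ := by
        gcongr
        refine le_trans ?_ le_add_self
        gcongr with σ
        exact hs σ

lemma exists_k (c : ℝ) (hc : 0 < c) :
    ∃ k : ℕ, 2 ≤ k ∧ 2 * Real.exp (-(c * k)) < 1 / ((k ^ 2 : ℕ) : ℝ) := by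
  obtain ⟨k, hk⟩ := exists_nat_gt (max 2 (12 / c ^ 3))
  have hk2 : (2 : ℝ) < k := lt_of_le_of_lt (le_max_left _ _) hk
  have hk3 : 12 / c ^ 3 < k := lt_of_le_of_lt (le_max_right _ _) hk
  refine ⟨k, by exact_mod_cast hk2.le, ?_⟩
  have hkpos : (0 : ℝ) < k := by linarith
  have h := Real.pow_div_factorial_le_exp (c * k) (by positivity) 3
  have h6 : ((Nat.factorial 3 : ℕ) : ℝ) = 6 := by norm_num [Nat.factorial]
  rw [h6] at h
  rw [div_lt_iff₀ (by positivity)] at hk3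
  push_cast
  rw [Real.exp_neg, ← div_eq_mul_inv, div_lt_div_iff₀ (Real.exp_pos _) (by positivity)]
  have : 12 * (k : ℝ) ^ 2 < (c * k) ^ 3 := by
    have : (c * k) ^ 3 = (k * c ^ 3) * k ^ 2 := by ring
    rw [this]; gcongr
  linarith

end Pool.Agent.Lib.MP_63bd8a_pr
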