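import Pool.Agent.Lib.MP_63bd8a_pr.Hedge
import Pool.Agent.Lib.MP_63bd8a_pr.ES

/-! Subgradients, and the convex Poincare inequality for the uniform law on a cube. -/

set_option autoImplicit false
open MeasureTheory ProbabilityTheory ENNReal

namespace Pool.Agent.Lib.MP_63bd8a_pr

lemma exists_subgrad {n : ℕ} (f : EuclideanSpace ℝ (Fin n) → ℝ) (hf : ConvexOn ℝ Set.univ f)
    (hc : Continuous f) (x : EuclideanSpace ℝ (Fin n)) : ∃ g : EuclideanSpace ℝ (Fin n),
      (∀ z, f x + inner ℝ g (z - x) ≤ f z) ∧ ENNReal.ofReal ‖g‖ ≤ slope' f x := by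
  have h1 : Convex ℝ {p : EuclideanSpace ℝ (Fin n) × ℝ | f p.1 < p.2} := by
    simpa using hf.convex_strict_epigraph
  have h2 : IsOpen {p : EuclideanSpace ℝ (Fin n) × ℝ | f p.1 < p.2} :=
    isOpen_lt (by fun_prop) continuous_snd
  obtain ⟨φ, hφ⟩ := geometric_hahn_banach_open_point h1 h2 (x := (x, f x)) (by simp)
  have sp : ∀ (z : EuclideanSpace ℝ (Fin n)) (r : ℝ), φ (z, r) = φ (z, 0) + r * φ (0, 1) := by
    intro z r
    rw [← smul_eq_mul, ← map_smul, ← map_add]
    simp
  have hneg : φ (0, 1) < 0 := by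
    have := hφ (x, f x + 1) (by simp)
    rw [sp x (f x + 1), sp x (f x)] at this
    linarith
  let L : StrongDual ℝ (EuclideanSpace ℝ (Fin n)) :=
    (-φ (0, 1))⁻¹ • φ.comp (ContinuousLinearMap.inl ℝ _ ℝ)
  have key : ∀ z, f x + inner ℝ ((InnerProductSpace.toDual ℝ _).symm L) (z - x) ≤ f z := by
    intro z
    rw [InnerProductSpace.toDual_symm_apply]
    refine le_of_forall_pos_le_add fun ε hε => ?_
    have := hφ (z, f z + ε) (by simpa using hε)
    rw [sp z (f z + ε), sp x (f x)] at this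
    have e : L (z - x) = (-φ (0, 1))⁻¹ * (φ (z, 0) - φ (x, 0)) := by
      rw [map_sub, mul_sub]; rfl
    have h3 : L (z - x) ≤ f z + ε - f x := by
      rw [e, inv_mul_le_iff₀ (by linarith)]
      linarith
    linarith
  refine ⟨_, key, ?_⟩
  set g := (InnerProductSpace.toDual ℝ _).symm L
  by_cases h0 : g = 0
  · simp [h0]
  have hn : 0 < ‖g‖ := norm_pos_iff.2 h0
  have e : ‖g‖ = ‖g‖ ^ 2 / ‖g‖ := by field_simp
  rw [e]
  refine le_slope' f x g h0 _ fun t _ => ?_
  have := key (x + t • g)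
  rw [add_sub_cancel_left, inner_smul_right, real_inner_self_eq_norm_sq] at this
  linarith

/-- the uniform law on the interval from -1 to 1 -/
noncomputable def un : Measure ℝ := (2 : ℝ≥0∞)⁻¹ • volume.restrict (Set.Icc (-1) 1)

instance : IsProbabilityMeasure un := ⟨by
  have : ENNReal.ofReal (1 + 1) = 2 := by norm_num
  simp [un, this, ENNReal.inv_mul_cancel]⟩

/-- the uniform law on the cube -/
noncomputable def uP (n : ℕ) : Measure (Fin n → ℝ) := Measure.pi fun _ => un

instance (n : ℕ) : IsProbabilityMeasure (uP n) := by unfold uP; infer_instance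

lemma ae_un : ∀ᵐ y ∂un, |y| ≤ 1 := by
  refine Measure.ae_smul_measure ?_ _
  filter_upwards [ae_restrict_mem measurableSet_Icc] with y hy
  exact abs_le.2 hy

lemma ae_uP (n : ℕ) : ∀ᵐ x ∂(uP n), ∀ i, |x i| ≤ 1 :=
  ae_all_iff.2 fun i => (Measure.tendsto_eval_ae_ae (μ := fun _ => un) (i := i)).eventually ae_un

/-- the dilated point -/
noncomputable def X {n : ℕ} (s : ℝ) (x : Fin n → ℝ) : EuclideanSpace ℝ (Fin n) :=
  s • WithLp.toLp 2 x

lemma X_apply {n : ℕ} (s : ℝ) (x : Fin n → ℝ) (i : Fin n) : X s x i = s * x i := rfl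

lemma cont_X {n : ℕ} (s : ℝ) : Continuous (X (n := n) s) := by unfold X; fun_prop

lemma norm_X {n : ℕ} {s : ℝ} (hs : 0 ≤ s) {x : Fin n → ℝ} (h : ∀ i, |x i| ≤ 1) :
    ‖X s x‖ ≤ s * √n := by
  rw [X, norm_smul, Real.norm_of_nonneg hs, EuclideanSpace.norm_eq]
  gcongr
  calc ∑ i, ‖x i‖ ^ 2 ≤ ∑ _i : Fin n, (1 : ℝ) := Finset.sum_le_sum fun i _ => by
        have := h i
        rw [Real.norm_eq_abs]
        nlinarith [abs_nonneg (x i)]
    _ = n := by simp

/-- truncation to the interval -/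
def cl (y : ℝ) : ℝ := max (-1) (min 1 y)

lemma cl_le (y : ℝ) : |cl y| ≤ 1 :=
  abs_le.2 ⟨le_max_left _ _, max_le (by norm_num) (min_le_left _ _)⟩

lemma cl_eq {y : ℝ} (h : |y| ≤ 1) : cl y = y := by
  rw [cl, min_eq_right (abs_le.1 h).2, max_eq_right (abs_le.1 h).1]

lemma bdd_X {n : ℕ} {s : ℝ} (hs : 0 ≤ s) {f : EuclideanSpace ℝ (Fin n) → ℝ} (hc : Continuous f) :
    ∃ B, ∀ x : Fin n → ℝ, (∀ i, |x i| ≤ 1) → |f (X s x)| ≤ B := by
  obtain ⟨B, hB⟩ := (isCompact_closedBall (0 : EuclideanSpace ℝ (Fin n))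
    (s * √n)).exists_bound_of_continuousOn hc.continuousOn
  exact ⟨B, fun x hx => hB _ (by simpa using norm_X hs hx)⟩

lemma memLp_X {n : ℕ} {s : ℝ} (hs : 0 ≤ s) {f : EuclideanSpace ℝ (Fin n) → ℝ}
    (hc : Continuous f) : MemLp (fun x => f (X s x)) 2 (uP n) := by
  obtain ⟨B, hB⟩ := bdd_X hs hc
  exact MemLp.of_bound (hc.comp (cont_X s)).aestronglyMeasurable B
    ((ae_uP n).mono fun x hx => hB x hx)

lemma coord_le {n : ℕ} {s : ℝ} (hs : 0 ≤ s) (f : EuclideanSpace ℝ (Fin n) → ℝ)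
    (hf : ConvexOn ℝ Set.univ f) (hc : Continuous f) {x : Fin n → ℝ} (hx : ∀ i, |x i| ≤ 1)
    {y : ℝ} (hy : |y| ≤ 1) :
    ∑ i, ENNReal.ofReal (f (X s x) - f (X s (Function.update x i y))) ^ 2
      ≤ ENNReal.ofReal (4 * s ^ 2) * slope' f (X s x) ^ 2 := by
  obtain ⟨g, h1, h2⟩ := exists_subgrad f hf hc (X s x)
  have h3 : ∀ i, f (X s x) - f (X s (Function.update x i y)) ≤ 2 * s * |g i| := fun i => by
    have := h1 (X s (Function.update x i y))
    have e : X s (Function.update x i y) - X s x = EuclideanSpace.single i (s * (y - x i)) := by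
      ext j
      by_cases h : j = i
      · subst h; simp [X_apply]; ring
      · simp [X_apply, h]
    rw [e, EuclideanSpace.inner_single_right] at this
    have h4 : |s * (y - x i) * g i| ≤ 2 * s * |g i| := by
      rw [abs_mul, abs_mul, abs_of_nonneg hs]
      have : |y - x i| ≤ 2 := (abs_sub _ _).trans (by linarith [hx i])
      gcongr ?_ * _
      nlinarith
    have h5 := neg_abs_le (s * (y - x i) * g i)
    simp only [conj_trivial] at this
    linarith
  calc _ ≤ ∑ i, ENNReal.ofReal ((2 * s * |g i|) ^ 2) := Finset.sum_le_sum fun i _ => by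
        rw [ENNReal.ofReal_pow (by positivity)]
        gcongr
        exact h3 i
    _ = ENNReal.ofReal (4 * s ^ 2) * ENNReal.ofReal ‖g‖ ^ 2 := by
        rw [← ENNReal.ofReal_sum_of_nonneg fun _ _ => sq_nonneg _,
          ← ENNReal.ofReal_pow (norm_nonneg _), ← ENNReal.ofReal_mul (by positivity),
          EuclideanSpace.real_norm_sq_eq, Finset.mul_sum]
        congr 1
        refine Finset.sum_congr rfl fun i _ => ?_
        rw [mul_pow, sq_abs]; ring
    _ ≤ _ := by gcongr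

/-- convex Poincare inequality on the cube of half side `s` -/
lemma cp_cube {n : ℕ} {s : ℝ} (hs : 0 ≤ s) (f : EuclideanSpace ℝ (Fin n) → ℝ)
    (hf : ConvexOn ℝ Set.univ f) (hc : Continuous f) :
    evariance (fun x => f (X s x)) (uP n)
      ≤ ENNReal.ofReal (4 * s ^ 2) * ∫⁻ x, slope' f (X s x) ^ 2 ∂(uP n) := by
  obtain ⟨B, hB⟩ := bdd_X hs hc
  have hm : Measurable fun x : Fin n → ℝ => f (X s fun i => cl (x i)) :=
    (hc.comp ((cont_X s).comp (by unfold cl; fun_prop))).measurable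
  have e : (fun x => f (X s x)) =ᵐ[uP n] fun x => f (X s fun i => cl (x i)) :=
    (ae_uP n).mono fun x hx => by simp only [cl_eq (hx _)]
  rw [evariance_congr e, ← lintegral_const_mul' _ _ ENNReal.ofReal_ne_top]
  refine (efron_stein_pi un B n _ hm fun x => hB _ fun i => cl_le _).trans
    (lintegral_mono_ae ((ae_uP n).mono fun x hx => ?_))
  refine (lintegral_mono_ae (g := fun _ => ENNReal.ofReal (4 * s ^ 2) * slope' f (X s x) ^ 2)
    (ae_un.mono fun y hy => ?_)).trans (by simp)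
  have : ∀ i, (fun j => cl (Function.update x i y j)) = Function.update x i y := fun i => by
    funext j
    refine cl_eq ?_
    by_cases h : j = i
    · subst h; simpa using hy
    · simpa [h] using hx j
  simp only [this, cl_eq (hx _)]
  exact coord_le hs f hf hc hx hy

end Pool.Agent.Lib.MP_63bd8a_pr
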